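import Pool.Agent.Helper51.AJ.St
import Pool.Agent.Helper51.AJ.Basic

/-!
# Project AJ (MP_d63854_co), module BBA: subdivided `K₄` or `K₁,₁,₃`
-/

set_option autoImplicit false

namespace Pool.Agent.Helper40.AJ

open Pool.Agent.Helper51.AJ

private lemma core {V : Type} (B : SimpleGraph V) (u v w : V) (W : Fin 3 → Set V)
    (hN : NF B u v W) (hW0 : W 0 = {w}) {x y : V} (hxy : B.Adj x y)
    {P X Q Y : Set V} (hPX : P ∪ X = W 1) (dPX : Disjoint P X) (hx : x ∈ X) (cP : Con B P)
    (cX : Con B X) (tPX : Tch B P X) (tuP : Tch B {u} P) (tvX : Tch B {v} X)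
    (hQY : Q ∪ Y = W 2) (dQY : Disjoint Q Y) (hy : y ∈ Y) (cQ : Con B Q)
    (cY : Con B Y) (tQY : Tch B Q Y)
    (h : (Tch B {u} Q ∧ Tch B {v} Y) ∨ (Tch B {v} Q ∧ Tch B {u} Y)) :
    IsMinor X5 B ∨ IsMinor X3 B := by
  have sP : P ⊆ W 1 := hPX ▸ Set.subset_union_left
  have sX : X ⊆ W 1 := hPX ▸ Set.subset_union_right
  have sQ : Q ⊆ W 2 := hQY ▸ Set.subset_union_left
  have sY : Y ⊆ W 2 := hQY ▸ Set.subset_union_right
  have d12 : Disjoint (W 1) (W 2) := hN.dis 1 2 (by decide)
  have w1 : Disjoint {w} (W 1) := hW0 ▸ hN.dis 0 1 (by decide)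
  have w2 : Disjoint {w} (W 2) := hW0 ▸ hN.dis 0 2 (by decide)
  have u1 : Disjoint {u} (W 1) := Set.disjoint_singleton_left.2 (hN.nu 1)
  have u2 : Disjoint {u} (W 2) := Set.disjoint_singleton_left.2 (hN.nu 2)
  have v1 : Disjoint {v} (W 1) := Set.disjoint_singleton_left.2 (hN.nv 1)
  have v2 : Disjoint {v} (W 2) := Set.disjoint_singleton_left.2 (hN.nv 2)
  have uv : Disjoint ({u} : Set V) {v} := Set.disjoint_singleton.2 hN.ne
  have uw : Disjoint ({u} : Set V) {w} := hW0 ▸ Set.disjoint_singleton_left.2 (hN.nu 0)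
  have vw : Disjoint ({v} : Set V) {w} := hW0 ▸ Set.disjoint_singleton_left.2 (hN.nv 0)
  have tuw : Tch B {u} {w} := hW0 ▸ hN.au 0
  have tvw : Tch B {v} {w} := hW0 ▸ hN.av 0
  have tXY : Tch B X Y := ⟨x, hx, y, hy, hxy⟩
  have dPY : Disjoint P Y := d12.mono sP sY
  have dPQ : Disjoint P Q := d12.mono sP sQ
  have dXY : Disjoint X Y := d12.mono sX sY
  have dXQ : Disjoint X Q := d12.mono sX sQ
  have duP := u1.mono_right sP
  have duX := u1.mono_right sX
  have duQ := u2.mono_right sQ
  have duY := u2.mono_right sY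
  have dvP := v1.mono_right sP
  have dvX := v1.mono_right sX
  have dvQ := v2.mono_right sQ
  have dvY := v2.mono_right sY
  have dwP := w1.mono_right sP
  have dwX := w1.mono_right sX
  have dwQ := w2.mono_right sQ
  have dwY := w2.mono_right sY
  rcases h with ⟨tuQ, tvY⟩ | ⟨tvQ, tuY⟩
  · left
    refine isMinor_gr ![{u}, {v}, X, Y, {w}, P, Q] ?_ ?_ ?_
    · intro i
      fin_cases i
      · exact con_singleton B u
      · exact con_singleton B v
      · exact cX
      · exact cY
      · exact con_singleton B w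
      · exact cP
      · exact cQ
    · intro i j hij
      fin_cases i <;> fin_cases j <;> first
        | exact absurd hij (by decide)
        | exact uv
        | exact duX
        | exact duY
        | exact uw
        | exact duP
        | exact duQ
        | exact dvX
        | exact dvY
        | exact vw
        | exact dvP
        | exact dvQ
        | exact dXY
        | exact dwX.symm
        | exact dPX.symm
        | exact dXQ
        | exact dwY.symm
        | exact dPY.symm
        | exact dQY.symm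
        | exact dwP
        | exact dwQ
        | exact dPQ
    · intro p hp h1 h2
      simp only [List.mem_cons, List.not_mem_nil, or_false] at hp
      rcases hp with rfl | rfl | rfl | rfl | rfl | rfl | rfl | rfl | rfl
      · exact tuw
      · exact tch_symm tvw
      · exact tuP
      · exact tPX
      · exact tuQ
      · exact tQY
      · exact tvX
      · exact tvY
      · exact tXY
  · right
    have cuY : Con B ({u} ∪ Y) := con_union (con_singleton B u) cY tuY
    have cvX : Con B ({v} ∪ X) := con_union (con_singleton B v) cX tvX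
    have e01 : Disjoint ({u} ∪ Y) ({v} ∪ X) := by
      rw [Set.disjoint_union_left, Set.disjoint_union_right, Set.disjoint_union_right]
      exact ⟨⟨uv, duX⟩, dvY.symm, dXY.symm⟩
    have e02 : Disjoint ({u} ∪ Y) {w} := Set.disjoint_union_left.2 ⟨uw, dwY.symm⟩
    have e03 : Disjoint ({u} ∪ Y) P := Set.disjoint_union_left.2 ⟨duP, dPY.symm⟩
    have e04 : Disjoint ({u} ∪ Y) Q := Set.disjoint_union_left.2 ⟨duQ, dQY.symm⟩
    have e12 : Disjoint ({v} ∪ X) {w} := Set.disjoint_union_left.2 ⟨vw, dwX.symm⟩
    have e13 : Disjoint ({v} ∪ X) P := Set.disjoint_union_left.2 ⟨dvP, dPX.symm⟩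
    have e14 : Disjoint ({v} ∪ X) Q := Set.disjoint_union_left.2 ⟨dvQ, dXQ⟩
    refine isMinor_gr ![{u} ∪ Y, {v} ∪ X, {w}, P, Q] ?_ ?_ ?_
    · intro i
      fin_cases i
      · exact cuY
      · exact cvX
      · exact con_singleton B w
      · exact cP
      · exact cQ
    · intro i j hij
      fin_cases i <;> fin_cases j <;> first
        | exact absurd hij (by decide)
        | exact e01
        | exact e02
        | exact e03
        | exact e04
        | exact e12
        | exact e13
        | exact e14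
        | exact dwP
        | exact dwQ
        | exact dPQ
    · intro p hp h1 h2
      simp only [List.mem_cons, List.not_mem_nil, or_false] at hp
      rcases hp with rfl | rfl | rfl | rfl | rfl | rfl | rfl
      · exact tch_mono (tch_symm tXY) Set.subset_union_right Set.subset_union_right
      · exact tch_mono tuw Set.subset_union_left subset_rfl
      · exact tch_mono tuP Set.subset_union_left subset_rfl
      · exact tch_mono (tch_symm tQY) Set.subset_union_right subset_rfl
      · exact tch_mono tvw Set.subset_union_left subset_rfl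
      · exact tch_mono (tch_symm tPX) Set.subset_union_right subset_rfl
      · exact tch_mono tvQ Set.subset_union_left subset_rfl

theorem hBBA (h1 : StSpl) : StBba := by
  intro V _ B u v w W hN hW0 ⟨x, hx, y, hy, hxy⟩ hs1 hs2
  obtain ⟨-, h2, -⟩ := h1 V B u v W hN 1 hs1
  obtain ⟨-, h3, -⟩ := h1 V B u v W hN 2 hs2
  obtain ⟨P, X, hPX, dPX, hxX, cP, cX, tPX, hP⟩ := h2 x hx
  obtain ⟨Q, Y, hQY, dQY, hyY, cQ, cY, tQY, hQ⟩ := h3 y hy
  rcases hP with ⟨a1, a2⟩ | ⟨a1, a2⟩
  · exact core B u v w W hN hW0 hxy hPX dPX hxX cP cX tPX a1 a2 hQY dQY hyY cQ cY tQY hQ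
  · exact core B v u w W hN.swap hW0 hxy hPX dPX hxX cP cX tPX a1 a2 hQY dQY hyY cQ cY tQY hQ.symm

end Pool.Agent.Helper40.AJ
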